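import Mathlib

set_option linter.unusedVariables false
set_option linter.unusedSectionVars false

namespace Pool.Agent.H58.CE

open Matrix

/-- the orthogonal projection off `y`. -/
noncomputable def Pm {n : ℕ} (y : Fin n → ℝ) : Matrix (Fin n) (Fin n) ℝ :=
  1 - vecMulVec y y

theorem Pm_transpose {n : ℕ} (y : Fin n → ℝ) : (Pm y)ᵀ = Pm y := by
  simp [Pm, Matrix.transpose_vecMulVec]

theorem Pm_mulVec {n : ℕ} (y v : Fin n → ℝ) : (Pm y) *ᵥ v = v - (y ⬝ᵥ v) • y := by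
  simp only [Pm, Matrix.sub_mulVec, Matrix.one_mulVec]
  congr 1
  ext i
  simp [Matrix.vecMulVec_mulVec, mul_comm]

theorem trace_vecMulVec_mul {n : ℕ} (a b : Fin n → ℝ) (N : Matrix (Fin n) (Fin n) ℝ) :
    (vecMulVec a b * N).trace = b ⬝ᵥ (N *ᵥ a) := by
  rw [Matrix.vecMulVec_mul, Matrix.trace_vecMulVec, dotProduct_comm, Matrix.dotProduct_mulVec]

theorem trace_Pm_mul {n : ℕ} (y : Fin n → ℝ) (N : Matrix (Fin n) (Fin n) ℝ) :
    (Pm y * N).trace = N.trace - y ⬝ᵥ (N *ᵥ y) := by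
  rw [Pm, Matrix.sub_mul, Matrix.one_mul, Matrix.trace_sub, trace_vecMulVec_mul]

theorem trace_conj_nonneg {n : ℕ} (y : Fin n → ℝ) (Q B : Matrix (Fin n) (Fin n) ℝ)
    (hy : y ⬝ᵥ y = 1) (hq : ∀ t, y ⬝ᵥ t = 0 → 0 ≤ t ⬝ᵥ (Q *ᵥ t)) :
    0 ≤ (Bᵀ * (Pm y * Q * Pm y) * B).trace := by
  rw [Matrix.trace]
  refine Finset.sum_nonneg fun i _ => ?_
  have h1 : (Bᵀ * (Pm y * Q * Pm y) * B).diag i
      = (Pm y *ᵥ (fun k => B k i)) ⬝ᵥ (Q *ᵥ (Pm y *ᵥ (fun k => B k i))) := by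
    have h2 : (Bᵀ * (Pm y * Q * Pm y) * B).diag i
        = (fun k => B k i) ⬝ᵥ ((Pm y * Q * Pm y) *ᵥ (fun k => B k i)) := by
      rw [Matrix.diag_apply, Matrix.mul_assoc, Matrix.mul_apply]
      simp only [dotProduct, Matrix.mulVec, Matrix.transpose_apply]
      refine Finset.sum_congr rfl fun k _ => ?_
      rw [Matrix.mul_apply]
    rw [h2, Matrix.mul_assoc, ← Matrix.mulVec_mulVec, ← Matrix.mulVec_mulVec,
      Matrix.dotProduct_mulVec, ← Matrix.mulVec_transpose, Pm_transpose]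
  rw [h1]
  apply hq
  rw [Pm_mulVec, dotProduct_sub, dotProduct_smul, hy]
  simp

/-- THE MATRIX LEMMA (identity and inequality). -/
theorem matrix_lemma {n : ℕ} (M C Y : Matrix (Fin n) (Fin n) ℝ) (y xi p : Fin n → ℝ) (mu : ℝ)
    (hM : Mᵀ = M) (hC : Cᵀ = C) (hy : y ⬝ᵥ y = 1) (hMxi : M *ᵥ xi = mu • y) (hmu : 0 ≤ mu)
    (hq : ∀ t, y ⬝ᵥ t = 0 → 0 ≤ t ⬝ᵥ ((M - C + mu • (1 : Matrix (Fin n) (Fin n) ℝ)) *ᵥ t))
    (hPY : Pm y * Y = Y)
    (hqY : Pm y * (M - C + mu • (1 : Matrix (Fin n) (Fin n) ℝ)) * Y = Pm y * M) :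
    0 ≤ (Pm (y + xi) * (M * Y)).trace - ((n : ℝ) + 1) * ((y + xi) ⬝ᵥ p)
      - (p ⬝ᵥ p - ((y + xi) ⬝ᵥ p) ^ 2)
      - ((Pm y * M).trace - p ⬝ᵥ p + (y ⬝ᵥ p) ^ 2 - ((n : ℝ) + 1) * (y ⬝ᵥ p))
      - ((Pm y * C).trace - 2 * mu - 2 * mu * (y ⬝ᵥ p) + 2 * (y ⬝ᵥ p) * ((xi ⬝ᵥ p) + mu)
          - ((n : ℝ) + 1) * ((xi ⬝ᵥ p) + mu)) := by
  set Q := M - C + mu • (1 : Matrix (Fin n) (Fin n) ℝ) with hQ
  set P := Pm y with hP
  obtain ⟨q, hqdef⟩ : ∃ q, q = P * Q * P := ⟨_, rfl⟩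
  have hPt : Pᵀ = P := Pm_transpose y
  have hQt : Qᵀ = Q := by
    rw [hQ, Matrix.transpose_add, Matrix.transpose_sub, hM, hC, Matrix.transpose_smul,
      Matrix.transpose_one]
  have hqt : qᵀ = q := by
    rw [hqdef, Matrix.transpose_mul, Matrix.transpose_mul, hPt, hQt, Matrix.mul_assoc]
  have hPP : P * P = P := by
    have h1 : vecMulVec y y * vecMulVec y y = vecMulVec y y := by
      rw [Matrix.vecMulVec_mul_vecMulVec, hy, one_smul]
    rw [hP, Pm, Matrix.sub_mul, Matrix.one_mul, Matrix.mul_sub, Matrix.mul_one, h1]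
    abel
  have hqY' : q * Y = P * M := by
    rw [hqdef, Matrix.mul_assoc, hPY, hqY]
  have hYt : Yᵀ * P = Yᵀ := by
    have := congrArg Matrix.transpose hPY
    rwa [Matrix.transpose_mul, hPt] at this
  -- the symmetric matrix
  have hS : Yᵀ * q * Y = Yᵀ * M := by
    rw [Matrix.mul_assoc, hqY', ← Matrix.mul_assoc, hYt]
  have hS' : M * Y = Yᵀ * q * Y := by
    have h1 := congrArg Matrix.transpose hS
    rw [Matrix.transpose_mul, Matrix.transpose_mul, Matrix.transpose_mul, Matrix.transpose_transpose,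
      hqt, hM, ← Matrix.mul_assoc] at h1
    exact h1.symm
  have hPy : P *ᵥ y = 0 := by
    rw [hP, Pm_mulVec, hy, one_smul, sub_self]
  have hx : q *ᵥ (Y *ᵥ (y + xi)) = q *ᵥ (Y *ᵥ y) := by
    rw [Matrix.mulVec_mulVec, Matrix.mulVec_mulVec, hqY', Matrix.mulVec_add]
    have h1 : (P * M) *ᵥ xi = 0 := by
      rw [← Matrix.mulVec_mulVec, hMxi, Matrix.mulVec_smul, hPy, smul_zero]
    rw [h1, add_zero]
  have hquad : ∀ v, v ⬝ᵥ ((M * Y) *ᵥ v) = (Y *ᵥ v) ⬝ᵥ (q *ᵥ (Y *ᵥ v)) := by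
    intro v
    rw [hS', Matrix.mul_assoc, ← Matrix.mulVec_mulVec, ← Matrix.mulVec_mulVec,
      Matrix.dotProduct_mulVec, Matrix.vecMul_transpose]
  have hsym : ∀ u v, u ⬝ᵥ (q *ᵥ v) = v ⬝ᵥ (q *ᵥ u) := by
    intro u v
    rw [Matrix.dotProduct_mulVec, ← Matrix.mulVec_transpose, hqt, dotProduct_comm]
  have hxy : (y + xi) ⬝ᵥ ((M * Y) *ᵥ (y + xi)) = y ⬝ᵥ ((M * Y) *ᵥ y) := by
    rw [hquad, hquad, hx, hsym, hx]
  -- traces
  have t1 : (Pm (y + xi) * (M * Y)).trace = (M * Y).trace - y ⬝ᵥ ((M * Y) *ᵥ y) := by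
    rw [trace_Pm_mul, hxy]
  have t2 : (P * (M * Y) * P).trace = (M * Y).trace - y ⬝ᵥ ((M * Y) *ᵥ y) := by
    rw [Matrix.trace_mul_comm, ← Matrix.mul_assoc, hPP, hP, trace_Pm_mul]
  have t3 : q.trace = (P * M).trace - (P * C).trace + mu * ((n : ℝ) - 1) := by
    have h1 : q.trace = (P * Q).trace := by
      rw [hqdef, Matrix.trace_mul_comm, ← Matrix.mul_assoc, hPP]
    have h2 : P.trace = (n : ℝ) - 1 := by
      rw [hP, Pm, Matrix.trace_sub, Matrix.trace_one, Matrix.trace_vecMulVec, hy]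
      simp
    rw [h1, hQ, Matrix.mul_add, Matrix.mul_sub, Matrix.trace_add, Matrix.trace_sub,
      Matrix.mul_smul, Matrix.mul_one, Matrix.trace_smul, h2, smul_eq_mul]
  have t4 : 0 ≤ ((Y * P - P)ᵀ * q * (Y * P - P)).trace := by
    rw [hqdef]
    exact trace_conj_nonneg y Q _ hy hq
  have t5 : ((Y * P - P)ᵀ * q * (Y * P - P)).trace
      = (P * (M * Y) * P).trace - 2 * (P * M).trace + q.trace := by
    have e0 : (Y * P - P)ᵀ = P * Yᵀ - P := by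
      rw [Matrix.transpose_sub, Matrix.transpose_mul, hPt]
    have hPq : P * q = q := by
      rw [hqdef, ← Matrix.mul_assoc, ← Matrix.mul_assoc, hPP]
    have hqP : q * P = q := by
      rw [hqdef, Matrix.mul_assoc, hPP]
    have e1 : (Y * P - P)ᵀ * q * (Y * P - P)
        = P * (Yᵀ * q * Y) * P - P * Yᵀ * q - q * Y * P + q := by
      rw [e0]
      have a1 : P * Yᵀ * q * (Y * P) = P * (Yᵀ * q * Y) * P := by
        simp only [Matrix.mul_assoc]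
      have a2 : P * Yᵀ * q * P = P * Yᵀ * q := by
        rw [Matrix.mul_assoc, hqP]
      have a3 : P * q * (Y * P) = q * Y * P := by
        rw [hPq, Matrix.mul_assoc]
      have a4 : P * q * P = q := by rw [hPq, hqP]
      rw [Matrix.sub_mul, Matrix.sub_mul, Matrix.mul_sub, Matrix.mul_sub, a1, a2, a3, a4]
      abel
    have e2 : (P * Yᵀ * q).trace = (P * M).trace := by
      have : (P * Yᵀ * q).trace = ((P * Yᵀ * q)ᵀ).trace := (Matrix.trace_transpose _).symm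
      rw [this, Matrix.transpose_mul, Matrix.transpose_mul, Matrix.transpose_transpose, hPt, hqt,
        ← Matrix.mul_assoc, hqY', Matrix.trace_mul_comm, ← Matrix.mul_assoc, hPP]
    have e3 : (q * Y * P).trace = (P * M).trace := by
      rw [hqY', Matrix.trace_mul_comm, ← Matrix.mul_assoc, hPP]
    rw [e1, Matrix.trace_add, Matrix.trace_sub, Matrix.trace_sub, e2, e3, ← hS']
    ring
  have hsplit : (y + xi) ⬝ᵥ p = y ⬝ᵥ p + xi ⬝ᵥ p := add_dotProduct _ _ _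
  rw [t1, hsplit]
  rw [t5, t2, t3] at t4
  nlinarith [sq_nonneg (xi ⬝ᵥ p)]

end Pool.Agent.H58.CE
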